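import Mathlib

/-! The transformation of a theta series in two variables with a complex quadratic form. -/

namespace Pool.Agent.P.MP_26a8c3_nt.T2

open Complex Real

/-- the term of the theta series -/
noncomputable def tm (p q r : ℂ) (x : ℤ × ℤ) : ℂ :=
  cexp (-π * (p * x.1 ^ 2 + 2 * q * x.1 * x.2 + r * x.2 ^ 2))

/-- the theta series -/
noncomputable def th (p q r : ℂ) : ℂ := ∑' x : ℤ × ℤ, tm p q r x

/-- the real part of the form is positive definite -/
def Pos (p q r : ℂ) : Prop := 0 < p.re ∧ q.re ^ 2 < p.re * r.re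

lemma Pos.right {p q r : ℂ} (h : Pos p q r) : 0 < r.re := by
  have := sq_nonneg q.re
  by_contra hr
  nlinarith [h.1, h.2, mul_nonneg h.1.le (neg_nonneg.2 (not_lt.1 hr))]

lemma Pos.swap {p q r : ℂ} (h : Pos p q r) : Pos r q p := ⟨h.right, by rw [mul_comm]; exact h.2⟩

lemma summable_gauss {c : ℝ} (hc : 0 < c) : Summable fun n : ℤ => rexp (-c * (n : ℝ) ^ 2) := by
  have h : Summable fun n : ℕ => rexp (-c * (n : ℝ) ^ 2) := by
    refine Summable.of_nonneg_of_le (fun _ => (Real.exp_pos _).le) (fun n => ?_)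
      (Real.summable_exp_nat_mul_iff.2 (neg_lt_zero.2 hc))
    refine Real.exp_le_exp.2 ?_
    have : (n : ℝ) ≤ (n : ℝ) ^ 2 := by exact_mod_cast Nat.le_self_pow two_ne_zero n
    nlinarith
  exact Summable.of_nat_of_neg (by simpa using h) (by simpa using h)

lemma norm_tm (p q r : ℂ) (x : ℤ × ℤ) : ‖tm p q r x‖ =
    rexp (-π * (p.re * x.1 ^ 2 + 2 * q.re * x.1 * x.2 + r.re * x.2 ^ 2)) := by
  rw [tm, Complex.norm_exp]
  congr 1
  simp [pow_two]

lemma Pos.summable {p q r : ℂ} (h : Pos p q r) : Summable (tm p q r) := by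
  have hs : 0 < p.re + r.re := add_pos h.1 h.right
  set c := π * ((p.re * r.re - q.re ^ 2) / (p.re + r.re)) with hc
  have hc0 : 0 < c := mul_pos pi_pos (div_pos (sub_pos.2 h.2) hs)
  have h1 := (summable_gauss hc0).mul_of_nonneg (summable_gauss hc0)
    (fun _ => (Real.exp_pos _).le) (fun _ => (Real.exp_pos _).le)
  refine Summable.of_norm_bounded h1 fun x => ?_
  rw [norm_tm, ← Real.exp_add]
  refine Real.exp_le_exp.2 ?_
  have h2 : (p.re * r.re - q.re ^ 2) / (p.re + r.re) * ((x.1 : ℝ) ^ 2 + (x.2 : ℝ) ^ 2) ≤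
      p.re * x.1 ^ 2 + 2 * q.re * x.1 * x.2 + r.re * x.2 ^ 2 := by
    rw [div_mul_eq_mul_div, div_le_iff₀ hs]
    nlinarith [sq_nonneg (p.re * x.1 + q.re * x.2), sq_nonneg (q.re * x.1 + r.re * x.2)]
  rw [hc]
  nlinarith [mul_le_mul_of_nonneg_left h2 pi_pos.le]

lemma th_swap (p q r : ℂ) : th p q r = th r q p := by
  rw [th, th, ← (Equiv.prodComm ℤ ℤ).tsum_eq]
  refine tsum_congr fun x => ?_
  simp only [tm, Equiv.prodComm_apply, Prod.fst_swap, Prod.snd_swap]
  congr 1; ring

lemma th_neg (p q r : ℂ) : th p (-q) r = th p q r := by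
  rw [th, th, ← (Equiv.prodCongr (Equiv.refl ℤ) (Equiv.neg ℤ)).tsum_eq]
  refine tsum_congr fun x => ?_
  simp only [tm, Equiv.prodCongr_apply, Prod.map_fst, Prod.map_snd, Equiv.refl_apply,
    Equiv.neg_apply, Int.cast_neg]
  congr 1; ring

lemma Pos.step {p q r : ℂ} (h : Pos p q r) : Pos (p - q ^ 2 / r) (-I * q / r) (1 / r) := by
  have hr := h.right
  have hs : 0 < r.re * r.re + r.im * r.im := by nlinarith [mul_self_nonneg r.im]
  have e : (1 / r).re * (p - q ^ 2 / r).re - (-I * q / r).re ^ 2 =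
      (p.re * r.re - q.re ^ 2) / (r.re * r.re + r.im * r.im) := by
    simp only [Complex.div_re, Complex.sub_re, normSq_apply, pow_two, mul_re, mul_im, neg_re,
      neg_im, I_re, I_im, one_re, one_im]
    field_simp
    ring
  have h1 : 0 < (1 / r).re := by
    simp only [Complex.div_re, normSq_apply, one_re, one_im]
    have := div_pos hr hs
    simpa using this
  have h2 : 0 < (p.re * r.re - q.re ^ 2) / (r.re * r.re + r.im * r.im) :=
    div_pos (sub_pos.2 h.2) hs
  exact Pos.swap ⟨h1, by linarith⟩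

lemma th_step {p q r : ℂ} (h : Pos p q r) :
    th p q r = 1 / r ^ (1 / 2 : ℂ) * th (p - q ^ 2 / r) (-I * q / r) (1 / r) := by
  have hr : r ≠ 0 := fun h0 => by simpa [h0] using h.right
  rw [th, th, h.summable.tsum_prod, h.step.summable.tsum_prod, ← tsum_mul_left]
  refine tsum_congr fun u => ?_
  have h1 := Complex.tsum_exp_neg_quadratic h.right (-q * u)
  have h2 : ∀ v : ℤ, tm p q r (u, v) =
      cexp (-π * p * u ^ 2) * cexp (-π * r * v ^ 2 + 2 * π * (-q * u) * v) := by
    intro v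
    rw [tm, ← Complex.exp_add]; congr 1; ring
  simp_rw [h2]
  rw [tsum_mul_left, h1, mul_left_comm, ← tsum_mul_left]
  congr 1
  refine tsum_congr fun m => ?_
  rw [tm, ← Complex.exp_add]
  congr 1
  field_simp
  linear_combination (-(q ^ 2 * u ^ 2)) * I_sq

lemma sqrt_re_pos {z : ℂ} (hz : 0 < z.re) : |(z ^ (1 / 2 : ℂ)).im| < (z ^ (1 / 2 : ℂ)).re := by
  have hz0 : z ≠ 0 := fun h0 => by simp [h0] at hz
  have h1 : (z ^ (1 / 2 : ℂ)) ^ 2 = z := by
    rw [← cpow_nat_mul]; simp
  have h2 : 0 ≤ (z ^ (1 / 2 : ℂ)).re := by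
    have := Complex.cpow_inv_two_re z
    rw [one_div, this]
    exact Real.sqrt_nonneg _
  have h3 := congrArg Complex.re h1
  simp only [pow_two, mul_re] at h3
  exact abs_lt_of_sq_lt_sq (by nlinarith) h2

/-- the transformation formula when the determinant is a positive real number -/
theorem th_inv {p q r : ℂ} (h : Pos p q r) {D : ℝ} (hD : 0 < D) (e : p * r - q ^ 2 = D) :
    th p q r = (1 / √D : ℝ) * th (p / D) (q / D) (r / D) := by
  have hr : r ≠ 0 := fun h0 => by simpa [h0] using h.right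
  have hD' : (D : ℂ) ≠ 0 := by exact_mod_cast hD.ne'
  have e1 : p - q ^ 2 / r = D / r := by rw [← e]; field_simp
  have h1 := h.step
  rw [th_step h, th_swap, th_step h1.swap, e1]
  rw [e1] at h1
  have a1 : 1 / r - (-I * q / r) ^ 2 / (D / r) = p / D := by
    field_simp
    linear_combination (-1 : ℂ) * e - q ^ 2 * I_sq
  have a2 : -I * (-I * q / r) / (D / r) = -(q / D) := by
    field_simp
    linear_combination q * I_sq
  have a3 : 1 / (D / r) = r / D := by field_simp
  rw [a1, a2, a3, th_neg, ← mul_assoc]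
  congr 1
  have b1 := sqrt_re_pos h.right
  have b2 := sqrt_re_pos h1.1
  set s := r ^ (1 / 2 : ℂ) with hs
  set t := ((D : ℂ) / r) ^ (1 / 2 : ℂ) with ht
  have c1 : s ^ 2 = r := by rw [hs, ← cpow_nat_mul]; simp
  have c2 : t ^ 2 = D / r := by rw [ht, ← cpow_nat_mul]; simp
  have c3 : (s * t) ^ 2 = ((√D : ℝ) : ℂ) ^ 2 := by
    rw [mul_pow, c1, c2, ← ofReal_pow, Real.sq_sqrt hD.le]; field_simp
  have c4 : 0 < (s * t).re := by
    rw [mul_re]
    have := abs_mul s.im t.im
    have := mul_lt_mul'' b1 b2 (abs_nonneg _) (abs_nonneg _)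
    linarith [le_abs_self (s.im * t.im)]
  rcases sq_eq_sq_iff_eq_or_eq_neg.1 c3 with c | c
  · rw [one_div_mul_one_div, c]; simp
  · rw [c] at c4
    simp only [neg_re, ofReal_re] at c4
    linarith [Real.sqrt_nonneg D]

end Pool.Agent.P.MP_26a8c3_nt.T2
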