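import Pool.Agent.P.MP_26a8c3_nt.QO.Res
import Pool.Agent.P.MP_26a8c3_nt.QO.StR
import Pool.Agent.P.MP_26a8c3_nt.QR.Th2

/-! The evaluation of quadratic Gauss sums on the Eisenstein integers. -/

namespace Pool.Agent.P.MP_26a8c3_nt.QO

open Complex Filter Topology
open scoped Real

namespace R3P

/-- the Gaussian -/
noncomputable def g (ε : ℝ) (z : O) : ℝ := Real.exp (-π * ε * N z)

/-- the quadratic phase -/
noncomputable def ph (n : O) (τ : ℝ) (z : O) : ℂ :=
  cexp (((2 * π * (τ * ((z ^ 2 * star n).im : ℝ)) : ℝ) : ℂ) * I)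

/-- the theta series -/
noncomputable def Th (n : O) (ε τ : ℝ) : ℂ := ∑' z : O, ph n τ z * g ε z

lemma g_pos (ε : ℝ) (z : O) : 0 < g ε z := Real.exp_pos _

lemma norm_ph (n : O) (τ : ℝ) (z : O) : ‖ph n τ z‖ = 1 := norm_exp_ofReal_mul_I _

lemma N_cast (z : O) : (N z : ℝ) = (z.re : ℝ) ^ 2 - z.re * z.im + (z.im : ℝ) ^ 2 := by
  exact_mod_cast N_int z

lemma tm_eq (n : O) (ε τ : ℝ) (z : O) :
    T2.tm (ε + 2 * I * τ * n.im) (-ε / 2 - 2 * I * τ * n.re) (ε - 2 * I * τ * (n.im - n.re))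
      (z.re, z.im) = ph n τ z * g ε z := by
  rw [T2.tm, ph, g, ofReal_exp, ← Complex.exp_add, N_cast]
  congr 1
  simp [pow_two]
  ring

lemma pos (n : O) {ε : ℝ} (hε : 0 < ε) (τ : ℝ) :
    T2.Pos (ε + 2 * I * τ * n.im) (-ε / 2 - 2 * I * τ * n.re) (ε - 2 * I * τ * (n.im - n.re)) := by
  constructor <;> simp <;> nlinarith [mul_pos hε hε]

lemma Th_eq (n : O) (ε τ : ℝ) : Th n ε τ =
    T2.th (ε + 2 * I * τ * n.im) (-ε / 2 - 2 * I * τ * n.re) (ε - 2 * I * τ * (n.im - n.re)) := by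
  rw [Th, T2.th, ← (QuadraticAlgebra.equivProd (-1 : ℤ) (-1)).tsum_eq]
  exact tsum_congr fun z => (tm_eq n ε τ z).symm

lemma summable_Th (n : O) {ε : ℝ} (hε : 0 < ε) (τ : ℝ) : Summable fun z => ph n τ z * g ε z := by
  have := (QuadraticAlgebra.equivProd (-1 : ℤ) (-1)).summable_iff.2 (pos n hε τ).summable
  exact this.congr fun z => tm_eq n ε τ z

lemma summable_g {ε : ℝ} (hε : 0 < ε) : Summable (g ε) := by
  refine (summable_Th 0 hε 0).norm.congr fun z => ?_
  rw [norm_mul, norm_ph, one_mul, norm_real, Real.norm_of_nonneg (g_pos ε z).le]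

lemma Th_inv (n : O) {ε : ℝ} (hε : 0 < ε) (τ : ℝ) :
    Th n ε τ = (1 / √(3 / 4 * ε ^ 2 + 4 * τ ^ 2 * N n) : ℝ) *
      Th n (ε / (3 / 4 * ε ^ 2 + 4 * τ ^ 2 * N n)) (τ / (3 / 4 * ε ^ 2 + 4 * τ ^ 2 * N n)) := by
  have hD : 0 < 3 / 4 * ε ^ 2 + 4 * τ ^ 2 * N n := by positivity
  rw [Th_eq, Th_eq, T2.th_inv (pos n hε τ) hD]
  · congr 2 <;> push_cast <;> ring
  · rw [N_cast]
    push_cast
    linear_combination (-4 * (τ : ℂ) ^ 2 * ((n.re : ℂ) ^ 2 - n.re * n.im + (n.im : ℂ) ^ 2)) * I_sq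

lemma lim (hP : S_Poi) {q : O} (hq : q ≠ 0) {F : O → ℂ} (hF : Per q F) (h1 : ∀ x, ‖F x‖ ≤ 1) :
    Tendsto (fun ε : ℝ => (ε : ℂ) * ∑' m : O, F m * g ε m) (𝓝[>] 0)
      (𝓝 ((a0 / π / N q : ℝ) * sm q F)) := by
  have hN := N_pos_real hq
  have hc : 0 < a0 / π := div_pos a0_pos Real.pi_pos
  have hT : Tendsto (fun ε : ℝ => a0 / π / ε) (𝓝[>] 0) atTop :=
    tendsto_inv_nhdsGT_zero.const_mul_atTop hc
  have h2 : Tendsto (fun P : ℝ => ∑' h : O, ft F q h * (G (P * N h / N q) : ℝ)) atTop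
      (𝓝 (∑' h : O, if h = 0 then sm q F else 0)) := by
    refine tendsto_tsum_of_dominated_convergence
      ((summable_g (div_pos hc hN)).mul_left ((N q : ℝ) * 1)) (fun h => ?_) ?_
    · split_ifs with h0
      · simp [h0, G_zero, ft_zero]
      · have h3 : Tendsto (fun P : ℝ => G (P * N h / N q)) atTop (𝓝 0) := by
          refine Real.tendsto_exp_neg_atTop_nhds_zero.comp ?_
          exact ((tendsto_id.atTop_mul_const (N_pos_real h0)).atTop_div_const hN).const_mul_atTop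
            a0_pos
        simpa using ((continuous_ofReal.tendsto 0).comp h3).const_mul (ft F q h)
    · filter_upwards [eventually_ge_atTop 1] with P hP1 h
      rw [norm_mul, norm_real, Real.norm_of_nonneg (G_pos _).le]
      refine mul_le_mul (norm_ft_le hq h1 h) ?_ (G_pos _).le (by positivity)
      have e : g (a0 / π / N q) h = G (1 * N h / N q) := by
        rw [g, G]; congr 1; field_simp
      rw [e]
      refine G_anti ?_
      gcongr
  rw [tsum_ite_eq] at h2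
  refine ((h2.comp hT).const_mul ((a0 / π / N q : ℝ) : ℂ)).congr' ?_
  filter_upwards [self_mem_nhdsWithin] with ε hε
  have hε' : (0 : ℝ) < ε := hε
  have e : ∀ m : O, g ε m = G (N m / (a0 / π / ε)) := fun m => by
    rw [g, G]; congr 1; have := a0_pos; field_simp
  simp_rw [e]
  have e' : a0 / π / N q = ε * (a0 / π / ε / N q) := by field_simp
  rw [hP q F _ hq hF (div_pos hc hε'), ← mul_assoc, ← ofReal_mul, ← e']
  rfl

lemma im_le (n z : O) : |((z ^ 2 * star n).im : ℝ)| ≤ 2 * (N n * N z) := by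
  have h := (abs_le_of_N (z ^ 2 * star n)).2
  rw [map_mul, map_pow, N_star] at h
  have h' : 3 * ((z ^ 2 * star n).im : ℝ) ^ 2 ≤ 4 * ((N z : ℝ) ^ 2 * N n) := by exact_mod_cast h
  have h2 : (N n : ℝ) ≤ (N n : ℝ) ^ 2 := by exact_mod_cast Nat.le_self_pow two_ne_zero _
  refine abs_le_of_sq_le_sq' ?_ (by positivity) |> abs_le.2
  nlinarith [mul_le_mul_of_nonneg_left h2 (sq_nonneg (N z : ℝ)),
    sq_nonneg ((z ^ 2 * star n).im : ℝ)]

lemma ph_sub (n z : O) (τ τ' : ℝ) :
    ‖ph n τ z - ph n τ' z‖ ≤ 4 * π * |τ - τ'| * (N n * N z) := by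
  have e : ph n τ z - ph n τ' z = ph n τ' z * (ph n (τ - τ') z - 1) := by
    rw [mul_sub, mul_one, ph, ph, ph, ← Complex.exp_add]
    congr 2; push_cast; ring
  rw [e, norm_mul, norm_ph, one_mul, ph, mul_comm _ I]
  refine (Real.norm_exp_I_mul_ofReal_sub_one_le).trans ?_
  rw [Real.norm_eq_abs, abs_mul, abs_mul (τ - τ'), abs_of_pos Real.two_pi_pos]
  have := mul_le_mul_of_nonneg_left (im_le n z) (abs_nonneg (τ - τ'))
  nlinarith [Real.pi_pos]

lemma Th_sub (n : O) {ε : ℝ} (hε : 0 < ε) (τ τ' : ℝ) :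
    ‖Th n ε τ - Th n ε τ'‖ ≤ 8 * N n * (|τ - τ'| / ε) * ∑' z, g (ε / 2) z := by
  rw [Th, Th, ← (summable_Th n hε τ).tsum_sub (summable_Th n hε τ'), ← tsum_mul_left]
  refine tsum_of_norm_bounded ((summable_g (half_pos hε)).mul_left _).hasSum fun z => ?_
  rw [← sub_mul, norm_mul, norm_real, Real.norm_of_nonneg (g_pos ε z).le]
  have h1 : π * ε / 2 * N z * g ε z ≤ g (ε / 2) z := by
    have h2 : g (ε / 2) z = Real.exp (π * ε / 2 * N z) * g ε z := by
      rw [g, g, ← Real.exp_add]; congr 1; ring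
    rw [h2]
    exact mul_le_mul_of_nonneg_right (by linarith [Real.add_one_le_exp (π * ε / 2 * N z)])
      (g_pos ε z).le
  calc _ ≤ 4 * π * |τ - τ'| * (N n * N z) * g ε z :=
        mul_le_mul_of_nonneg_right (ph_sub n z τ τ') (g_pos ε z).le
    _ = 8 * N n * (|τ - τ'| / ε) * (π * ε / 2 * N z * g ε z) := by field_simp; ring
    _ ≤ _ := mul_le_mul_of_nonneg_left h1 (by positivity)

lemma ph_left (n z : O) : ph n (1 / N n) z = el (z ^ 2) n := by
  rw [ph, el_eq_real]; congr 4; ring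

lemma el_four (x : O) : el x 4 = cexp (((2 * π * (1 / 4 * (x.im : ℝ)) : ℝ) : ℂ) * I) := by
  have h1 : N (4 : O) = 16 := by decide
  have h2 : (x * star (4 : O)).im = 4 * x.im := by
    rw [show star (4 : O) = ⟨4, 0⟩ by decide]
    simp [mul_comm]
  rw [el_eq_real, h1, h2]; congr 4; push_cast; ring

lemma el_star (x : O) : el (star x) 4 = el (-x) 4 := by
  rw [el_four, el_four]; simp

lemma per_right (n : O) : Per 2 fun z => el (z ^ 2 * n) 4 := by
  rintro x y ⟨t, ht⟩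
  exact el_congr ⟨(t ^ 2 + t * y) * n, by linear_combination (x + y + 2 * t) * n * ht⟩

lemma sm_two {F : O → ℂ} (hF : Per 2 F) : sm 2 F = F 0 + F 1 + F w + F (w ^ 2) := by
  rw [sm_eq_of_reps hF {0, 1, w, w ^ 2}]
  · rw [Finset.sum_insert (by decide), Finset.sum_insert (by decide),
      Finset.sum_insert (by decide), Finset.sum_singleton]
    ring
  · have : ∀ a ∈ ({0, 1, w, w ^ 2} : Finset O), ∀ b ∈ ({0, 1, w, w ^ 2} : Finset O),
        2 ∣ N (a - b) → a = b := by decide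
    exact fun a ha b hb h => this a ha b hb ((two_dvd_iff_N _).1 h)
  · intro x
    have h2 : ∀ y : O, (2 : O) ∣ y ↔ (2 : ℤ) ∣ y.re ∧ (2 : ℤ) ∣ y.im := fun y =>
      intCast_dvd_iff 2 y
    rcases Int.emod_two_eq_zero_or_one x.re with a | a <;>
      rcases Int.emod_two_eq_zero_or_one x.im with b | b
    · exact ⟨0, by simp, (h2 _).2 (by simp; omega)⟩
    · exact ⟨w, by simp, (h2 _).2 (by simp; omega)⟩
    · exact ⟨1, by simp, (h2 _).2 (by simp; omega)⟩
    · exact ⟨w ^ 2, by simp, (h2 _).2 (by simp [w_sq]; omega)⟩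

lemma sm_right (n : O) : sm 2 (fun z => el (z ^ 2 * star n) 4) = 2 * gam n := by
  rw [sm_two (per_right _), gam, ← el_star, ← el_star, ← el_star]
  have e1 : w ^ 2 * star n = star (n * w) := by rw [star_mul, star_w]
  have e2 : (w ^ 2) ^ 2 * star n = star (n * w ^ 2) := by rw [star_mul, star_pow, star_w]
  simp only [e1, e2]
  simp
  ring

end R3P

open R3P in
/-- the quadratic Gauss sum for every nonzero modulus -/
theorem gauss_two (hP : S_Poi) {n : O} (hn : n ≠ 0) :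
    sm n (fun x => el (x ^ 2) n) = ab n * gam n := by
  have hN := N_pos_real hn
  have hc : 0 < a0 / π := div_pos a0_pos Real.pi_pos
  set D : ℝ → ℝ := fun ε => 3 / 4 * ε ^ 2 + 4 * (1 / N n) ^ 2 * N n with hD
  have hD0 : ∀ ε, 0 < D ε := fun ε => by positivity
  have hDc : Continuous D := by fun_prop
  have h1 := lim hP hn (F := fun x => el (x ^ 2) n)
    (fun x y e => el_congr (e.trans (sub_dvd_pow_sub_pow x y 2))) (fun x => (norm_el _ _).le)
  have h2 := lim hP two_ne_zero (per_right (star n)) (fun x => (norm_el _ _).le)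
  have h3 := (lim hP one_ne_zero (per_const 1 1) (fun x => by simp)).norm
  have t0 : Tendsto (fun ε : ℝ => ε) (𝓝[>] 0) (𝓝 0) := tendsto_id.mono_left nhdsWithin_le_nhds
  have tD : Tendsto D (𝓝[>] 0) (𝓝 (D 0)) := (hDc.tendsto 0).mono_left nhdsWithin_le_nhds
  have t1 : ∀ c : ℝ, 0 < c → Tendsto (fun ε => ε / D ε / c) (𝓝[>] 0) (𝓝[>] 0) := by
    intro c hc
    refine tendsto_nhdsWithin_iff.2 ⟨by simpa using (t0.div tD (hD0 0).ne').div_const c, ?_⟩
    filter_upwards [self_mem_nhdsWithin] with ε hε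
    exact div_pos (div_pos hε (hD0 ε)) hc
  have t2 : Tendsto (fun ε => ε / D ε) (𝓝[>] 0) (𝓝[>] 0) := by simpa using t1 1 one_pos
  have h4 : Tendsto (fun ε : ℝ => ((ε / D ε : ℝ) : ℂ) *
      (Th n (ε / D ε) (1 / N n / D ε) - Th n (ε / D ε) (1 / 4))) (𝓝[>] 0) (𝓝 0) := by
    have h5 := (t0.const_mul (3 * (N n : ℝ))).mul (h3.comp (t1 2 two_pos))
    rw [mul_zero, zero_mul] at h5
    refine squeeze_zero_norm' ?_ h5
    filter_upwards [self_mem_nhdsWithin] with ε hε
    have hε' : (0 : ℝ) < ε := hε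
    have hd := hD0 ε
    have he : 0 < ε / D ε := div_pos hε' hd
    have e1 : |1 / N n / D ε - 1 / 4| = 3 / 16 * ε ^ 2 / D ε := by
      rw [abs_sub_comm, show 1 / 4 - 1 / N n / D ε = 3 / 16 * ε ^ 2 / D ε by
        field_simp; simp only [hD]; field_simp; ring]
      exact abs_of_nonneg (by positivity)
    rw [norm_mul, norm_real, Real.norm_of_nonneg he.le]
    refine (mul_le_mul_of_nonneg_left (Th_sub n he _ _) he.le).trans (le_of_eq ?_)
    simp only [Function.comp, one_mul]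
    rw [← ofReal_tsum, ← ofReal_mul, norm_real, Real.norm_of_nonneg
      (mul_nonneg (half_pos he).le (tsum_nonneg fun z => (g_pos _ z).le)), e1]
    field_simp
    ring
  have h6 := (h4.add (h2.comp t2)).mul
    ((continuous_ofReal.tendsto _).comp ((Real.continuous_sqrt.tendsto _).comp tD))
  have h7 := tendsto_nhds_unique_of_eventuallyEq h1 h6 (by
    filter_upwards [self_mem_nhdsWithin] with ε hε
    have hε' : (0 : ℝ) < ε := hε
    have e1 : ∑' m : O, el (m ^ 2) n * (g ε m : ℂ) = Th n ε (1 / N n) :=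
      tsum_congr fun m => by rw [ph_left]
    have e2 : ∑' m : O, el (m ^ 2 * star n) 4 * (g (ε / D ε) m : ℂ) = Th n (ε / D ε) (1 / 4) :=
      tsum_congr fun m => by rw [el_four]; rfl
    simp only [Function.comp]
    rw [e1, e2, Th_inv n hε']
    have e3 : (ε : ℂ) * (1 / √(D ε) : ℝ) = (ε / D ε : ℝ) * (√(D ε) : ℝ) := by
      rw [← ofReal_mul, ← ofReal_mul]
      congr 1
      have := Real.sqrt_pos.2 (hD0 ε)
      have := hD0 ε
      field_simp
      exact (Real.sq_sqrt (hD0 ε).le).symm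
    linear_combination Th n (ε / D ε) (1 / N n / D ε) * e3)
  rw [sm_right, zero_add] at h7
  have hs := Real.sqrt_pos.2 hN
  have e4 : √(D 0) = 2 / √(N n) := by
    rw [Real.sqrt_eq_iff_mul_self_eq (hD0 0).le (by positivity), div_mul_div_comm,
      Real.mul_self_sqrt hN.le]
    simp only [hD]; field_simp; ring
  have e5 : (a0 / π / N (2 : O) : ℝ) * 2 * √(D 0) = a0 / π / N n * ab n := by
    rw [e4, ab, norm_toC, show N (2 : O) = 4 by decide]
    field_simp
    rw [Real.sq_sqrt hN.le]; push_cast; ring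
  have e6 : ((a0 / π / N n : ℝ) : ℂ) ≠ 0 := by exact_mod_cast (div_pos hc hN).ne'
  refine mul_left_cancel₀ e6 ?_
  have e7 := congrArg (fun x : ℝ => (x : ℂ)) e5
  simp only [ofReal_mul, ofReal_ofNat] at e7
  rw [h7]
  linear_combination gam n * e7

theorem pR3 (hP : S_Poi) : S_R3 := fun n hn => gauss_two hP (by
  rintro rfl
  exact prime_two.not_isUnit (isCoprime_zero_left.1 hn))

end Pool.Agent.P.MP_26a8c3_nt.QO
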