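import Pool.Agent.P.MP_26a8c3_nt.QO.Sym
import Pool.Agent.P.MP_26a8c3_nt.QR.R3

/-! The table of the normalised quadratic Gauss sums modulo four. -/

namespace Pool.Agent.P.MP_26a8c3_nt.QO

open Complex
open scoped Real ComplexConjugate

namespace GamP

/-- residues modulo four -/
abbrev P4 : Type := ZMod 4 × ZMod 4

/-- reduction modulo four -/
def rd (n : O) : P4 := ((n.re : ZMod 4), (n.im : ZMod 4))

/-- the product of residues -/
def ml (x y : P4) : P4 := (x.1 * y.1 - x.2 * y.2, x.1 * y.2 + x.2 * y.1 - x.2 * y.2)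

/-- odd residues -/
def od (x : P4) : Prop := 2 * x.1 ≠ 0 ∨ 2 * x.2 ≠ 0

instance : DecidablePred od := fun x => by unfold od; infer_instance

/-- powers of `i` -/
def e4 (k : ZMod 4) : GaussianInt :=
  if k = 0 then 1 else if k = 1 then ⟨0, 1⟩ else if k = 2 then -1 else ⟨0, -1⟩

/-- twice the Gauss sum -/
def g2 (x : P4) : GaussianInt := 1 + e4 (-x.2) + e4 x.1 + e4 (x.2 - x.1)

/-- the Gauss sum -/
def gz (x : P4) : GaussianInt := ⟨(g2 x).re / 2, (g2 x).im / 2⟩

/-- the bicharacter -/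
def xz (x y : P4) : GaussianInt :=
  if od (ml x y) then gz (ml x y) * star (gz x) * star (gz y) else 0

lemma rd_mul (a b : O) : rd (a * b) = ml (rd a) (rd b) := by
  simp only [rd, ml, QuadraticAlgebra.re_mul, QuadraticAlgebra.im_mul]
  push_cast
  congr 1 <;> ring

lemma rd_eq {a b : O} : rd a = rd b ↔ 4 ∣ a - b := by
  have := intCast_dvd_iff 4 (a - b)
  rw [show ((4 : ℤ) : O) = 4 from rfl] at this
  rw [this, rd, rd, Prod.mk.injEq, eq_comm, eq_comm (a := (a.im : ZMod 4)),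
    ZMod.intCast_eq_intCast_iff_dvd_sub, ZMod.intCast_eq_intCast_iff_dvd_sub]
  simp

lemma od_rd {a : O} : Od a ↔ od (rd a) := by
  have h := intCast_dvd_iff 2 a
  rw [show ((2 : ℤ) : O) = 2 from rfl] at h
  have e : ∀ k : ℤ, (2 : ZMod 4) * k = 0 ↔ 2 ∣ k := fun k => by
    rw [show (2 : ZMod 4) * k = ((2 * k : ℤ) : ZMod 4) by push_cast; rfl,
      ZMod.intCast_zmod_eq_zero_iff_dvd]
    omega
  rw [od_iff, h, od, rd, ne_eq, ne_eq, e, e, not_and_or]

lemma el_e4 (x : O) : el x 4 = (e4 (x.im : ZMod 4) : ℂ) := by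
  have h1 : el x 4 = I ^ x.im := by
    have h0 := Complex.exp_int_mul (π / 2 * I) x.im
    rw [exp_pi_div_two_mul_I] at h0
    rw [R3P.el_four, ← h0]
    congr 1; push_cast; ring
  have h2 : I ^ x.im = I ^ (x.im % 4) := by
    conv_lhs => rw [← Int.emod_add_mul_ediv x.im 4, zpow_add₀ I_ne_zero, zpow_mul]
    rw [show I ^ (4 : ℤ) = 1 from I_pow_four, one_zpow, mul_one]
  have h3 : (x.im : ZMod 4) = ((x.im % 4 : ℤ) : ZMod 4) := (ZMod.intCast_mod x.im 4).symm
  rw [h1, h2, h3]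
  have h4 : x.im % 4 = 0 ∨ x.im % 4 = 1 ∨ x.im % 4 = 2 ∨ x.im % 4 = 3 := by omega
  rcases h4 with h | h | h | h <;> rw [h]
  · rw [show e4 ((0 : ℤ) : ZMod 4) = 1 by decide]; simp
  · rw [show e4 ((1 : ℤ) : ZMod 4) = ⟨0, 1⟩ by decide]; simp [GaussianInt.toComplex_def']
  · rw [show e4 ((2 : ℤ) : ZMod 4) = -1 by decide]
    rw [show I ^ (2 : ℤ) = -1 from I_sq]; simp
  · rw [show e4 ((3 : ℤ) : ZMod 4) = ⟨0, -1⟩ by decide]
    rw [show I ^ (3 : ℤ) = -I from I_pow_three]; simp [GaussianInt.toComplex_def']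

lemma two_gz : ∀ x, g2 x = 2 * gz x := by decide

lemma gam_eq (n : O) : gam n = (gz (rd n) : ℂ) := by
  have h := congrArg (fun z : GaussianInt => (z : ℂ)) (two_gz (rd n))
  simp only [g2, map_add, map_mul, map_one, map_ofNat] at h
  have e1 : (((-n).im : ℤ) : ZMod 4) = -(rd n).2 := by simp [rd]
  have e2 : (((-(n * w ^ 2)).im : ℤ) : ZMod 4) = (rd n).1 := by simp [rd, w_sq]
  have e3 : (((-(n * w)).im : ℤ) : ZMod 4) = (rd n).2 - (rd n).1 := by simp [rd]; ring
  rw [gam, el_e4, el_e4, el_e4, e1, e2, e3, h]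
  ring

lemma gz_unit : ∀ x, od x → gz x * star (gz x) = 1 := by decide
lemma od_ml : ∀ x y, od (ml x y) ↔ od x ∧ od y := by decide +kernel
lemma gz_sq : ∀ x u, od u → gz (ml x (ml u u)) = gz x := by decide +kernel
lemma xz_pm : ∀ x y, od x → od y → xz x y = 1 ∨ xz x y = -1 := by decide +kernel
lemma xz_mul : ∀ k x y, od k → xz k (ml x y) = xz k x * xz k y := by decide +kernel
lemma xz_one : ∀ k, od k → xz k (rd 1) = 1 := by decide
lemma gz_exp : ∀ x, od x → 2 * gz x = star (gz (rd 1)) * xz (rd 1) x +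
    star (gz (rd (-1))) * xz (rd (-1)) x + star (gz (rd lam)) * xz (rd lam) x +
    star (gz (rd (-lam))) * xz (rd (-lam)) x := by decide +kernel
lemma cls_ex : ∀ x, od x → ∃ k ∈ cls, ∃ u ∈ ({1, w, w ^ 2} : Finset O), od (rd u) ∧
    x = rd (k * u ^ 2) := by decide +kernel

lemma gam_conj {a : O} (h : Od a) : gam a * conj (gam a) = 1 := by
  rw [gam_eq, ← GaussianInt.toComplex_star, ← map_mul, gz_unit _ (od_rd.1 h), map_one]

lemma norm_gam {a : O} (h : Od a) : ‖gam a‖ = 1 := by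
  have := gam_conj h
  rw [mul_conj, normSq_eq_norm_sq] at this
  exact (pow_eq_one_iff_of_nonneg (norm_nonneg _) two_ne_zero).1 (by exact_mod_cast this)

lemma gam_ne {a : O} (h : Od a) : gam a ≠ 0 := left_ne_zero_of_mul_eq_one (gam_conj h)

lemma xi_eq (a b : O) : xi a b = (xz (rd a) (rd b) : ℂ) := by
  rw [xi, xz, ← rd_mul]
  by_cases h : Od (a * b)
  · obtain ⟨ha, hb⟩ := od_mul.1 h
    rw [if_pos h, if_pos (od_rd.1 h), map_mul, map_mul, GaussianInt.toComplex_star,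
      GaussianInt.toComplex_star, ← gam_eq, ← gam_eq, ← gam_eq,
      div_eq_iff (mul_ne_zero (gam_ne ha) (gam_ne hb))]
    linear_combination (-gam (a * b) * (gam b * conj (gam b))) * gam_conj ha -
      gam (a * b) * gam_conj hb
  · rw [if_neg h, if_neg (mt od_rd.2 h), map_zero]

lemma gam_per {a b : O} (h : 4 ∣ a - b) : gam a = gam b := by rw [gam_eq, gam_eq, rd_eq.2 h]

lemma gam_sq (a : O) {u : O} (h : Od u) : gam (a * u ^ 2) = gam a := by
  rw [gam_eq, gam_eq, sq, rd_mul, rd_mul, gz_sq _ _ (od_rd.1 h)]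

lemma gam_one : gam 1 = 1 := by rw [gam_eq, show gz (rd 1) = 1 by decide, map_one]

lemma xi_pm {a b : O} (ha : Od a) (hb : Od b) : xi a b = 1 ∨ xi a b = -1 := by
  rw [xi_eq]
  rcases xz_pm _ _ (od_rd.1 ha) (od_rd.1 hb) with h | h <;> simp [h]

lemma xi_comm (a b : O) : xi a b = xi b a := by rw [xi, xi, mul_comm a b, mul_comm (gam a)]

lemma isNu_xi {k : O} (hk : Od k) : IsNu 4 (xi k) := by
  refine ⟨?_, fun a b => ?_, fun a b h => ?_, fun a h => ?_, fun a => ?_⟩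
  · rw [xi_eq, xz_one _ (od_rd.1 hk), map_one]
  · rw [xi_eq, xi_eq, xi_eq, rd_mul, xz_mul _ _ _ (od_rd.1 hk), map_mul]
  · rw [xi_eq, xi_eq, rd_eq.2 h]
  · refine if_neg fun e => h ?_
    rw [show (4 : O) = 2 ^ 2 by norm_num]
    exact IsCoprime.pow_right (od_mul.1 e).2
  · by_cases h : Od a
    · rcases xi_pm hk h with e | e <;> simp [e]
    · rw [xi, if_neg fun e => h (od_mul.1 e).2]; simp

lemma od_cls : ∀ k ∈ cls, Od k := by
  have : ∀ k ∈ cls, od (rd k) := by decide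
  exact fun k hk => od_rd.2 (this k hk)

lemma sum_cls {M : Type*} [AddCommMonoid M] (f : O → M) :
    ∑ k ∈ cls, f k = f 1 + f (-1) + f lam + f (-lam) := by
  rw [cls, Finset.sum_insert (by decide), Finset.sum_insert (by decide),
    Finset.sum_insert (by decide), Finset.sum_singleton, add_assoc, add_assoc]

end GamP

open GamP in
theorem pGam : S_Gam := by
  refine ⟨gam_one, fun _ _ => gam_per, fun _ => norm_gam, fun a _ => gam_sq a, xi_comm,
    fun _ _ => xi_pm, fun _ => isNu_xi, od_cls, fun a ha => ?_, fun a k u b hu h => ?_,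
    fun a b k u v hk hu hv h h' => ?_, fun k => conj (gam k) / 2, ?_, fun a ha => ?_⟩
  · obtain ⟨k, hk, u, -, hu, e⟩ := cls_ex _ (od_rd.1 ha)
    exact ⟨k, hk, u, od_rd.2 hu, rd_eq.1 e⟩
  · have e : xi a b = xi (k * u ^ 2) b := by rw [xi_eq, xi_eq, rd_eq.2 h]
    have e1 : k * u ^ 2 * b = k * b * u ^ 2 := by ring
    have e2 : Od (k * b * u ^ 2) ↔ Od (k * b) := by
      rw [sq, od_mul (a := k * b), od_mul (a := u)]; simp [hu]
    rw [e, xi, xi, e1, gam_sq _ hu, gam_sq _ hu]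
    by_cases h0 : Od (k * b)
    · rw [if_pos h0, if_pos (e2.2 h0)]
    · rw [if_neg h0, if_neg (mt e2.1 h0)]
  · have e : gam (a * b) = gam (1 * (k * u * v) ^ 2) := by
      rw [gam_eq, gam_eq, rd_mul, rd_eq.2 h, rd_eq.2 h', ← rd_mul]
      congr 3; ring
    rw [e, gam_sq _ (od_mul.2 ⟨od_mul.2 ⟨hk, hu⟩, hv⟩), gam_one]
  · refine le_of_eq ?_
    rw [Finset.sum_congr rfl (g := fun _ => (1 / 2 : ℝ)) fun k hk => by
      rw [norm_div, norm_conj, norm_gam (od_cls k hk)]; simp, sum_cls]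
    norm_num
  · have h := congrArg (fun z : GaussianInt => (z : ℂ)) (gz_exp _ (od_rd.1 ha))
    simp only [map_add, map_mul, map_ofNat, GaussianInt.toComplex_star, ← gam_eq, ← xi_eq] at h
    rw [sum_cls]
    linear_combination h / 2

end Pool.Agent.P.MP_26a8c3_nt.QO
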