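import Pool.Agent.P.MP_26a8c3_nt.QO.Sym

/-! Periodicity of the symbols in the modulus, and the orders of the symbols at a prime. -/

namespace Pool.Agent.P.MP_26a8c3_nt.QO

open scoped Classical ComplexConjugate

variable {a n n' p : O}

lemma ringChar_Rq_ne_two [hp : Fact (Prime p)] (h : Od p) : ringChar (Rq p) ≠ 2 := by
  intro e
  have h2 : ((2 : ℕ) : Rq p) = 0 := by rw [← e]; exact ringChar.Nat.cast_ringChar
  have h3 : p ∣ 2 := by
    rw [← mk_eq_zero, map_ofNat]; exact_mod_cast h2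
  exact hp.out.not_isUnit (h.isUnit_of_dvd' dvd_rfl h3)

/-- the second supplement -/
lemma eta_two (hn : Od n) : eta n 2 = ((ZMod.χ₈ (N n : ZMod 8) : ℤ) : ℂ) := by
  refine nz_ind (P := fun n => Od n → eta n 2 = ((ZMod.χ₈ (N n : ZMod 8) : ℤ) : ℂ))
    (fun u hu _ => ?_) (fun p a e1 _ ha ih h => ?_) hn.ne_zero hn
  · rw [eta_unit_left hu, isUnit_iff_N.1 hu]; simp
  · have := Fact.mk e1
    obtain ⟨h1, h2⟩ := od_mul.1 h
    rw [eta_mul_left e1.ne_zero ha, ih h2, eta_prime e1, s2_quad, map_ofNat,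
      quadraticChar_two (ringChar_Rq_ne_two h1), fcard_Rq, map_mul, Nat.cast_mul, map_mul,
      Int.cast_mul]

lemma N_congr_eight (h : (8 : O) ∣ n - n') : (N n : ZMod 8) = (N n' : ZMod 8) := by
  obtain ⟨⟨x, hx⟩, ⟨y, hy⟩⟩ := (intCast_dvd_iff 8 (n - n')).1 (by simpa using h)
  simp only [QuadraticAlgebra.re_sub, QuadraticAlgebra.im_sub] at hx hy
  have e : ((N n : ℤ) : ZMod 8) = ((N n' : ℤ) : ZMod 8) := by
    rw [ZMod.intCast_eq_intCast_iff_dvd_sub, N_int, N_int,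
      show n.re = n'.re + 8 * x by omega, show n.im = n'.im + 8 * y by omega]
    exact ⟨-(2 * n'.re * x + 8 * x ^ 2 - n'.re * y - x * n'.im - 8 * x * y + 2 * n'.im * y +
      8 * y ^ 2), by push_cast; ring⟩
  exact_mod_cast e

lemma od_unit (h : IsUnit a) : Od a := by
  obtain ⟨u, rfl⟩ := h
  exact ⟨(u⁻¹ : Oˣ), 0, by simp⟩

lemma eta_congr_odd (hQ : S_QR) (hG : S_Gam) (hn : Od n) (hn' : Od n') (ha : Od a)
    (h4 : (4 : O) ∣ n - n') (h : a ∣ n - n') : eta n a = eta n' a := by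
  obtain ⟨-, -, -, -, hs, -, hx, -⟩ := hG
  rw [hQ.2.1 n a hn ha, hQ.2.1 n' a hn' ha, eta_congr h, hs n a, hs n' a, (hx a ha).per n n' h4]

theorem pPer (h2 : S_R2) (hQ : S_QR) (hG : S_Gam) : S_Per := by
  intro Q h n n' hQ36 hh hp hn hn' hc hd
  have d72 : (72 : O) ∣ n - n' := by
    refine Dvd.dvd.trans ?_ hd
    rw [show (72 : O) = 2 * 36 by norm_num]
    exact mul_dvd_mul_left 2 hQ36
  have d9 : (9 : O) ∣ n - n' := Dvd.dvd.trans ⟨8, by norm_num⟩ d72
  have d8 : (8 : O) ∣ n - n' := Dvd.dvd.trans ⟨9, by norm_num⟩ d72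
  have d4 : (4 : O) ∣ n - n' := Dvd.dvd.trans ⟨18, by norm_num⟩ d72
  have on : Od n := hc.of_isCoprime_of_dvd_right (Dvd.dvd.trans ⟨18, by norm_num⟩ hQ36)
  have on' : Od n' := by
    rw [od_iff] at on ⊢
    exact fun e => on ((dvd_congr (Dvd.dvd.trans ⟨36, by norm_num⟩ d72)).2 e)
  have key : ∀ a, Od a → a ∣ n - n' → psi n a = psi n' a := fun a ha e => by
    rw [psi, psi, eta_congr_odd hQ hG on on' ha d4 e, h2 a n n' hn hn' d9 e]
  have two : psi n 2 = psi n' 2 := by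
    rw [psi, psi, eta_two on, eta_two on', N_congr_eight d8,
      h2 2 n n' hn hn' d9 (Dvd.dvd.trans ⟨36, by norm_num⟩ d72)]
  refine nz_ind (P := fun h => (∀ p, Prime p → p ∣ h → p ∣ Q) → psi n h = psi n' h)
    (fun u hu _ => key u (od_unit hu) hu.dvd) (fun p a e1 _ _ ih hp => ?_) hh hp
  rw [psi_mul, psi_mul, ih fun q q1 q2 => hp q q1 (q2.mul_left p)]
  congr 1
  by_cases ho : Od p
  · exact key p ho (((hp p e1 (dvd_mul_right _ _)).mul_left 2).trans hd)
  · obtain ⟨u, rfl⟩ := prime_two.associated_of_dvd e1 (not_not.1 (mt od_iff.2 ho))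
    rw [psi_mul, psi_mul, two, key u (od_unit u.isUnit) u.isUnit.dvd]

/-- the cubic symbol at a primary prime is not trivial -/
lemma exists_chi_ne (hp : Prime p) (h : Primary p) : ∃ x, ¬p ∣ x ∧ chi p x ≠ 1 := by
  have := Fact.mk hp
  obtain ⟨g, hg⟩ := IsCyclic.exists_ofOrder_eq_natCard (α := (Rq p)ˣ)
  obtain ⟨x, hx⟩ := mk_surj p (g : Rq p)
  refine ⟨x, fun e => g.ne_zero (by rw [← hx]; exact mk_eq_zero.2 e), fun e => ?_⟩
  rw [chi_prime hp, ← map_one toC] at e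
  have h1 := s3_spec hp h.not_lam_dvd x
  rw [toC_injective e, ← mk_eq_iff, map_pow, hx, map_one] at h1
  have h2 : g ^ ((N p - 1) / 3) = 1 := Units.ext (by simpa using h1)
  have h3 := orderOf_dvd_of_pow_eq_one h2
  rw [hg, Nat.card_eq_fintype_card, Fintype.card_units, fcard_Rq] at h3
  have h4 := two_le_N hp
  have h5 := h.N_mod
  have := Nat.le_of_dvd (by omega) h3
  omega

lemma exists_eta_neg (hp : Prime p) (h : Od p) : ∃ x, ¬p ∣ x ∧ eta p x = -1 := by
  have := Fact.mk hp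
  obtain ⟨y, hy⟩ := quadraticChar_exists_neg_one (ringChar_Rq_ne_two h)
  obtain ⟨x, rfl⟩ := mk_surj p y
  refine ⟨x, fun e => ?_, by rw [eta_prime hp, s2_quad, hy]; simp⟩
  rw [mk_eq_zero.2 e] at hy
  simp at hy

theorem pOrd : S_Ord := by
  intro p j hp h
  have cub : ∀ x, ¬p ∣ x → chi p x ^ j = 1 → chi p x ≠ 1 → 3 ∣ j := fun x hx e ne => by
    have h3 : chi p x ^ 3 = 1 := by rw [chi_cube hp.ne_zero, cop_prime hp, if_neg hx]
    have := Fact.mk Nat.prime_three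
    rw [← orderOf_eq_prime h3 ne]
    exact orderOf_dvd_of_pow_eq_one e
  obtain ⟨x, hx, ne⟩ := exists_chi_ne hp h
  refine ⟨fun hj e => hj (cub x hx ?_ ne), fun ho hj e => hj ?_⟩
  · have := congrFun e x
    rwa [cop_prime hp, if_neg hx] at this
  · obtain ⟨y, hy, ey⟩ := exists_eta_neg hp ho
    have e1 := congrFun e x
    have e2 := congrFun e y
    simp only [cop_prime hp, if_neg hx, if_neg hy] at e1 e2
    have d3 : 3 ∣ j := cub x hx (by rw [← psi_sq hp.ne_zero, ← pow_mul, mul_comm, pow_mul, e1,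
      one_pow]) ne
    have d2 : Even j := by
      have : (-1 : ℂ) ^ j = 1 := by
        rw [← ey, ← psi_cube hp.ne_zero, ← pow_mul, mul_comm, pow_mul, e2, one_pow]
      exact (neg_one_pow_eq_one_iff_even (by norm_num)).1 this
    obtain ⟨k, rfl⟩ := d2
    omega

end Pool.Agent.P.MP_26a8c3_nt.QO
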