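import Mathlib

/-!
Cubic characters of finite fields: Gauss sums, Jacobi sums and the Frobenius identity.
-/

namespace Pool.Agent.P.MP_26a8c3_nt.QO.Cub

open Finset AddChar MulChar

section general

variable {F R : Type*} [Field F] [Fintype F] [CommRing R]

omit [Fintype F] in
theorem neg_one {χ : MulChar F R} (h3 : χ ^ 3 = 1) : χ (-1) = 1 := by
  have h1 : χ (-1) ^ 3 = 1 := by
    rw [← MulChar.pow_apply' χ (by norm_num), h3]
    exact MulChar.one_apply isUnit_one.neg
  have h2 : χ (-1) ^ 2 = 1 := by rw [← map_pow]; simp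
  calc χ (-1) = χ (-1) ^ 2 * χ (-1) := by rw [h2, one_mul]
    _ = 1 := by rw [← pow_succ, h1]

omit [Fintype F] in
theorem mul_self_eq_inv {χ : MulChar F R} (h3 : χ ^ 3 = 1) : χ * χ = χ⁻¹ := by
  rw [eq_inv_iff_mul_eq_one, ← h3, pow_three']

omit [Fintype F] in
theorem mul_self_ne_one {χ : MulChar F R} (h1 : χ ≠ 1) (h3 : χ ^ 3 = 1) : χ * χ ≠ 1 := by
  rwa [mul_self_eq_inv h3, inv_ne_one]

/-- the cube of a cubic Gauss sum -/
theorem gauss_cube [IsDomain R] {χ : MulChar F R} (h1 : χ ≠ 1) (h3 : χ ^ 3 = 1)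
    {ψ : AddChar F R} (hψ : ψ.IsPrimitive) :
    gaussSum χ ψ ^ 3 = Fintype.card F * jacobiSum χ χ := by
  have a1 := jacobiSum_mul_nontrivial (mul_self_ne_one h1 h3) ψ
  have a2 := gaussSum_mul_gaussSum_eq_card h1 hψ
  have a3 := mul_gaussSum_inv_eq_gaussSum χ⁻¹ ψ
  have a4 : χ⁻¹ (-1) = 1 := neg_one (by rw [inv_pow, h3, inv_one])
  rw [a4, one_mul] at a3
  rw [mul_self_eq_inv h3] at a1
  rw [a3] at a2
  rw [← a2, pow_three, ← a1]
  ring

/-- the Jacobi sum vanishes modulo the prime -/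
theorem jac_zero {χ : MulChar F R} (f : R →+* F) {k : ℕ} (hk : 2 * k < Fintype.card F - 1)
    (h : ∀ x, f (χ x) = x ^ k) : f (jacobiSum χ χ) = 0 := by
  rw [jacobiSum, map_sum]
  have e : ∀ x : F, f (χ x * χ (1 - x)) =
      ∑ m ∈ range (k + 1), ((-1) ^ m * (k.choose m : F)) * x ^ (k + m) := fun x => by
    rw [map_mul, h, h, sub_eq_neg_add, add_pow, Finset.mul_sum]
    refine Finset.sum_congr rfl fun m _ => ?_
    rw [neg_pow, one_pow, pow_add]
    ring
  simp_rw [e]
  rw [Finset.sum_comm]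
  refine Finset.sum_eq_zero fun m hm => ?_
  rw [← Finset.mul_sum, FiniteField.sum_pow_lt_card_sub_one F _ (by
    have := Finset.mem_range.1 hm
    omega), mul_zero]

theorem frob_iter (p : ℕ) [Fact p.Prime] [CharP R p] (χ : MulChar F R) (ψ : AddChar F R)
    (n : ℕ) : gaussSum χ ψ ^ p ^ n = gaussSum (χ ^ p ^ n) (ψ ^ p ^ n) := by
  induction n with
  | zero => simp
  | succ n ih => rw [pow_succ, pow_mul, ih, gaussSum_frob, ← pow_mul, ← pow_mul]

end general

/-- the Frobenius identity behind cubic reciprocity -/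
theorem frob {F F' : Type*} [Field F] [Fintype F] [Field F'] [Fintype F']
    (hch : ringChar F' ≠ ringChar F) {χ : MulChar F F'} (h1 : χ ≠ 1) (h3 : χ ^ 3 = 1) {k : ℕ}
    (hk : Fintype.card F' = 3 * k + 1) :
    (Fintype.card F * jacobiSum χ χ) ^ k * χ (Fintype.card F' : F) = 1 := by
  obtain ⟨n, hp, hc⟩ := FiniteField.card F (ringChar F)
  obtain ⟨n', hp', hc'⟩ := FiniteField.card F' (ringChar F')
  let ψ := FiniteField.primitiveChar F F' hch
  let FF' := CyclotomicField ψ.n F'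
  have hchar := Algebra.ringChar_eq F' FF'
  have hinj := (algebraMap F' FF').injective
  apply hinj
  let χ' := χ.ringHomComp (algebraMap F' FF')
  have H1 : χ' ≠ 1 := (MulChar.ringHomComp_ne_one_iff hinj).mpr h1
  have H3 : χ' ^ 3 = 1 := by rw [MulChar.ringHomComp_pow, h3, MulChar.ringHomComp_one]
  have Hcard : (Fintype.card F : FF') ≠ 0 := by
    intro H
    simp only [hc, Nat.cast_pow, ne_eq, PNat.ne_zero, not_false_eq_true, pow_eq_zero_iff] at H
    exact hch <| hchar.trans <| CharP.ringChar_of_prime_eq_zero hp H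
  have hg := gaussSum_ne_zero_of_nontrivial Hcard H1 ψ.prim
  have := Fact.mk hp'
  have : CharP FF' (ringChar F') := hchar ▸ ringChar.charP FF'
  have hu : IsUnit ((Fintype.card F' : ℕ) : F) := by
    rw [hc', Nat.cast_pow]
    refine IsUnit.pow _ ((isUnit_iff_not_dvd_char F (ringChar F')).2 ?_)
    rwa [Nat.prime_dvd_prime_iff_eq hp' hp]
  have a1 := frob_iter (ringChar F') χ' ψ.char n'
  rw [← hc', pow_mulShift] at a1
  have a2 : χ' ^ Fintype.card F' = χ' := by rw [hk, pow_succ, pow_mul, H3, one_pow, one_mul]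
  have a3 := gaussSum_mulShift χ' ψ.char hu.unit
  rw [hu.unit_spec, ← a2, ← a1, a2] at a3
  rw [map_mul, map_pow, map_mul, map_natCast, ← jacobiSum_ringHomComp, map_one,
    ← MulChar.ringHomComp_apply]
  change (_ * jacobiSum χ' χ') ^ k * χ' _ = 1
  rw [← gauss_cube H1 H3 ψ.prim, ← pow_mul]
  refine mul_right_cancel₀ hg ?_
  rw [one_mul]
  conv_rhs => rw [← a3]
  conv_rhs => enter [2, 2]; rw [hk]
  ring

end Pool.Agent.P.MP_26a8c3_nt.QO.Cub
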