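import Pool.Agent.P.MP_26a8c3_nt.QO.Eis
import Pool.Agent.P.MP_26a8c3_nt.QR.Cub

/-!
The cubic symbol at a prime of `O` with values in `O`: Jacobi sum, Gauss sum, reciprocity.
-/

namespace Pool.Agent.P.MP_26a8c3_nt.QO.Cub

open Classical in
/-- the cubic residue symbol at a prime, with values in `O` -/
noncomputable def cP (p a : O) : O :=
  if p ∣ a ^ ((N p - 1) / 3) - 1 then 1
  else if p ∣ a ^ ((N p - 1) / 3) - w then w
  else if p ∣ a ^ ((N p - 1) / 3) - w ^ 2 then w ^ 2 else 0

/-- zero or a cube root of unity -/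
def Rt (z : O) : Prop := z = 0 ∨ z = 1 ∨ z = w ∨ z = w ^ 2

theorem rt_cP (p a : O) : Rt (cP p a) := by
  unfold cP Rt
  split_ifs <;> simp

theorem Rt.mul {y z : O} (hy : Rt y) (hz : Rt z) : Rt (y * z) := by
  unfold Rt
  rcases hy with rfl | rfl | rfl | rfl <;> rcases hz with rfl | rfl | rfl | rfl <;> decide

theorem Rt.star {z : O} (hz : Rt z) : Rt (star z) := by
  unfold Rt
  rcases hz with rfl | rfl | rfl | rfl <;> decide

theorem rt_one : Rt 1 := Or.inr (Or.inl rfl)

theorem Rt.cube {z : O} (hz : Rt z) (h : z ≠ 0) : z ^ 3 = 1 := by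
  rcases hz with rfl | rfl | rfl | rfl
  · exact absurd rfl h
  all_goals decide

theorem Rt.star_eq {z : O} (hz : Rt z) : Star.star z = z ^ 2 := by
  rcases hz with rfl | rfl | rfl | rfl <;> decide

variable {p q : O}

theorem N_eq (h3 : ¬lam ∣ p) : N p = 3 * ((N p - 1) / 3) + 1 := by
  have := N_mod_three h3
  omega

theorem k_pos (hp : Prime p) (h3 : ¬lam ∣ p) : 0 < (N p - 1) / 3 := by
  have := N_mod_three h3
  have := two_le_N hp
  omega

/-- the four values are incongruent -/
theorem Rt.eq_of_dvd (hp : Prime p) (h3 : ¬lam ∣ p) {y z : O} (hy : Rt y) (hz : Rt z)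
    (h : p ∣ y - z) : y = z := by
  by_contra hne
  have h1 : y - z ∣ 3 := by
    have e : ∀ x : O, (N x : ℤ) = 1 ∨ (N x : ℤ) = 3 → x ∣ 3 := fun x hx => by
      have := dvd_N x
      rcases hx with hx | hx
      · exact (isUnit_iff_N.2 (by exact_mod_cast hx)).dvd
      · have h4 : N x = 3 := by exact_mod_cast hx
        rwa [h4, Nat.cast_ofNat] at this
    apply e
    rw [N_int]
    rcases hy with rfl | rfl | rfl | rfl <;> rcases hz with rfl | rfl | rfl | rfl <;>
      first | exact absurd rfl hne | decide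
  have h2 := h.trans h1
  rw [three_eq, dvd_neg] at h2
  exact h3 ((hp.associated_of_dvd prime_lam (hp.dvd_of_dvd_pow h2)).symm.dvd)

theorem cP_spec (hp : Prime p) (h3 : ¬lam ∣ p) (a : O) : p ∣ a ^ ((N p - 1) / 3) - cP p a := by
  unfold cP
  split_ifs with h1 h2 h4
  · exact h1
  · exact h2
  · exact h4
  · rw [sub_zero]
    by_contra hc
    have ha : ¬p ∣ a := fun h => hc (dvd_pow h (k_pos hp h3).ne')
    have h5 := dvd_pow_N_sub_one hp ha
    have e : N p - 1 = (N p - 1) / 3 * 3 := by have := N_eq h3; omega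
    rw [e, pow_mul] at h5
    generalize a ^ ((N p - 1) / 3) = x at *
    have e2 : x ^ 3 - 1 = (x - 1) * ((x - w) * (x - w ^ 2)) := by
      linear_combination (x ^ 2 - x) * w_rel + (1 - x) * w_cube
    rw [e2] at h5
    rcases hp.dvd_or_dvd h5 with h | h
    · exact h1 h
    · exact (hp.dvd_or_dvd h).elim h2 h4

theorem cP_eq (hp : Prime p) (h3 : ¬lam ∣ p) {a z : O} (hz : Rt z)
    (h : p ∣ a ^ ((N p - 1) / 3) - z) : cP p a = z :=
  Rt.eq_of_dvd hp h3 (rt_cP p a) hz (by
    have := dvd_sub h (cP_spec hp h3 a)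
    rwa [sub_sub_sub_cancel_left] at this)

theorem mk_cP (hp : Prime p) (h3 : ¬lam ∣ p) (a : O) :
    mk p (cP p a) = mk p a ^ ((N p - 1) / 3) := by
  rw [← map_pow]
  exact (mk_eq_iff.2 (cP_spec hp h3 a)).symm

theorem cP_congr (hp : Prime p) (h3 : ¬lam ∣ p) {a b : O} (h : p ∣ a - b) : cP p a = cP p b :=
  Rt.eq_of_dvd hp h3 (rt_cP _ _) (rt_cP _ _) (mk_eq_iff.1 (by
    rw [mk_cP hp h3, mk_cP hp h3, mk_eq_iff.2 h]))

theorem cP_mul (hp : Prime p) (h3 : ¬lam ∣ p) (a b : O) : cP p (a * b) = cP p a * cP p b :=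
  Rt.eq_of_dvd hp h3 (rt_cP _ _) ((rt_cP _ _).mul (rt_cP _ _)) (mk_eq_iff.1 (by
    rw [map_mul, mk_cP hp h3, mk_cP hp h3, mk_cP hp h3, map_mul, mul_pow]))

theorem cP_one (p : O) : cP p 1 = 1 := by simp [cP]

theorem cP_eq_zero (hp : Prime p) (h3 : ¬lam ∣ p) {a : O} : cP p a = 0 ↔ p ∣ a := by
  constructor
  · intro h
    have := cP_spec hp h3 a
    rw [h, sub_zero] at this
    exact hp.dvd_of_dvd_pow this
  · intro h
    exact cP_eq hp h3 (Or.inl rfl) (by rw [sub_zero]; exact dvd_pow h (k_pos hp h3).ne')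

/-- the symbol as a multiplicative character of the residue field -/
noncomputable def ch (hp : Prime p) (h3 : ¬lam ∣ p) : MulChar (Rq p) O where
  toFun x := cP p x.out
  map_one' := (cP_congr hp h3 (mk_eq_iff.1 (by
    rw [map_one]; exact Ideal.Quotient.mk_out _))).trans (cP_one p)
  map_mul' x y := (cP_congr hp h3 (mk_eq_iff.1 (by
    rw [map_mul, Ideal.Quotient.mk_out, Ideal.Quotient.mk_out, Ideal.Quotient.mk_out]))).trans
      (cP_mul hp h3 _ _)
  map_nonunit' x hx := by
    have := Fact.mk hp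
    refine (cP_eq_zero hp h3).2 (mk_eq_zero.1 ?_)
    rw [Ideal.Quotient.mk_out]
    by_contra h
    exact hx (IsUnit.mk0 _ h)

theorem ch_apply (hp : Prime p) (h3 : ¬lam ∣ p) (x : Rq p) : ch hp h3 x = cP p x.out := rfl

theorem ch_mk (hp : Prime p) (h3 : ¬lam ∣ p) (a : O) : ch hp h3 (mk p a) = cP p a :=
  cP_congr hp h3 (mk_eq_iff.1 (Ideal.Quotient.mk_out _))

theorem mk_ch (hp : Prime p) (h3 : ¬lam ∣ p) (x : Rq p) :
    mk p (ch hp h3 x) = x ^ ((N p - 1) / 3) := by
  rw [ch_apply, mk_cP hp h3, Ideal.Quotient.mk_out]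

theorem ch_cube (hp : Prime p) (h3 : ¬lam ∣ p) : ch hp h3 ^ 3 = 1 := by
  refine MulChar.ext fun x => ?_
  rw [MulChar.pow_apply_coe, MulChar.one_apply_coe]
  exact (rt_cP _ _).cube (x.isUnit.map (ch hp h3)).ne_zero

theorem exists_ne_one (hp : Prime p) (h3 : ¬lam ∣ p) : ∃ x : (Rq p)ˣ, ch hp h3 x ≠ 1 := by
  have := Fact.mk hp
  by_contra hc
  push Not at hc
  have h1 : ∀ x : (Rq p)ˣ, x ^ ((N p - 1) / 3) = 1 := fun x => by
    ext
    rw [Units.val_pow_eq_pow_val, ← mk_ch hp h3, hc, map_one, Units.val_one]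
  have h2 := (FiniteField.forall_pow_eq_one_iff (Rq p) _).1 h1
  rw [fcard_Rq] at h2
  have h4 := Nat.le_of_dvd (k_pos hp h3) h2
  have := k_pos hp h3
  omega

theorem ch_ne_one (hp : Prime p) (h3 : ¬lam ∣ p) : ch hp h3 ≠ 1 := by
  obtain ⟨x, hx⟩ := exists_ne_one hp h3
  intro h
  exact hx (by rw [h, MulChar.one_apply_coe])

theorem cP_neg_one (hp : Prime p) (h3 : ¬lam ∣ p) : cP p (-1) = 1 := by
  have := Fact.mk hp
  rw [← ch_mk hp h3, map_neg, map_one]
  exact neg_one (ch_cube hp h3)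

theorem cP_neg (hp : Prime p) (h3 : ¬lam ∣ p) (a : O) : cP p (-a) = cP p a := by
  rw [← neg_one_mul, cP_mul hp h3, cP_neg_one hp h3, one_mul]

theorem prim_w : IsPrimitiveRoot w 3 := by
  refine IsPrimitiveRoot.mk_of_lt w (by norm_num) w_cube fun l h1 h2 => ?_
  interval_cases l <;> decide

/-- the complex valued character -/
noncomputable def chC (hp : Prime p) (h3 : ¬lam ∣ p) : MulChar (Rq p) ℂ :=
  (ch hp h3).ringHomComp toC

theorem chC_ne_one (hp : Prime p) (h3 : ¬lam ∣ p) : chC hp h3 ≠ 1 :=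
  (MulChar.ringHomComp_ne_one_iff toC_injective).2 (ch_ne_one hp h3)

theorem chC_cube (hp : Prime p) (h3 : ¬lam ∣ p) : chC hp h3 ^ 3 = 1 := by
  rw [chC, MulChar.ringHomComp_pow, ch_cube, MulChar.ringHomComp_one]

theorem chC_mk (hp : Prime p) (h3 : ¬lam ∣ p) (a : O) : chC hp h3 (mk p a) = toC (cP p a) := by
  rw [chC, MulChar.ringHomComp_apply, ch_mk]

/-- the Jacobi sum of the cubic symbol -/
theorem jac [hp : Fact (Prime p)] (h : Primary p) :
    jacobiSum (ch hp.out h.not_lam_dvd) (ch hp.out h.not_lam_dvd) = -p := by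
  have h3 := h.not_lam_dvd
  set J := jacobiSum (ch hp.out h3) (ch hp.out h3) with hJ
  have hk := k_pos hp.out h3
  have hN := N_eq h3
  have a1 : p ∣ J := mk_eq_zero.1 (jac_zero (mk p) (k := (N p - 1) / 3)
    (by rw [fcard_Rq]; omega) (mk_ch hp.out h3))
  have a2 : N J = N p := by
    obtain ⟨n, hl, -⟩ := FiniteField.card (Rq p) (ringChar (Rq p))
    have b1 := jacobiSum_mul_jacobiSum_inv (F' := ℂ)
      (by rw [ringChar.eq_zero]; exact hl.ne_zero.symm) (chC_ne_one hp.out h3)
      (chC_ne_one hp.out h3) (mul_self_ne_one (chC_ne_one hp.out h3) (chC_cube hp.out h3))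
    have b2 : jacobiSum (chC hp.out h3) (chC hp.out h3) = toC J := jacobiSum_ringHomComp _ _ _
    have b3 : jacobiSum (chC hp.out h3)⁻¹ (chC hp.out h3)⁻¹ =
        star (jacobiSum (chC hp.out h3) (chC hp.out h3)) := by
      simp only [jacobiSum, star_sum, star_mul', MulChar.star_apply']
    rw [b3, b2, fcard_Rq] at b1
    have b4 := (N_complex J).trans b1
    exact_mod_cast b4
  have a3 : Primary (-J) := by
    obtain ⟨z, -, hz⟩ := exists_jacobiSum_eq_neg_one_add (n := 3) (by norm_num) (ch_cube hp.out h3)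
      (ch_cube hp.out h3) (by rw [fcard_Rq]; omega) prim_w
    refine ⟨z * w, ?_⟩
    rw [hJ, hz]
    linear_combination (-z) * w_rel
  obtain ⟨u, hu⟩ := a1
  have a4 : IsUnit u := by
    rw [hu, map_mul] at a2
    exact isUnit_iff_N.2 (Nat.eq_of_mul_eq_mul_left (N_pos hp.out.ne_zero) (by rw [a2, mul_one]))
  have a5 : p = -J := h.eq_of_associated a3 ⟨-a4.unit, by simp [hu]⟩
  rw [a5, neg_neg]

/-- the cube of the Gauss sum of the cubic symbol -/
theorem gauss_chC [hp : Fact (Prime p)] (h : Primary p) {ψ : AddChar (Rq p) ℂ}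
    (hψ : ψ.IsPrimitive) : gaussSum (chC hp.out h.not_lam_dvd) ψ ^ 3 = -(N p * toC p) := by
  have a1 := gauss_cube (chC_ne_one hp.out h.not_lam_dvd) (chC_cube hp.out h.not_lam_dvd) hψ
  have a2 : jacobiSum (chC hp.out h.not_lam_dvd) (chC hp.out h.not_lam_dvd) = toC (-p) := by
    rw [← jac h]
    exact jacobiSum_ringHomComp _ _ _
  rw [a2, fcard_Rq, map_neg, mul_neg] at a1
  exact a1

/-- the Frobenius identity -/
theorem frob_O [hp : Fact (Prime p)] [hq : Fact (Prime q)] (h : Primary p) (h' : ¬lam ∣ q)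
    (hch : ringChar (Rq q) ≠ ringChar (Rq p)) :
    cP q p * cP q p * cP q (star p) * (cP p q * cP p (star q)) = 1 := by
  have h3 := h.not_lam_dvd
  have H1 : (ch hp.out h3).ringHomComp (mk q) ≠ 1 := by
    obtain ⟨x, hx⟩ := exists_ne_one hp.out h3
    intro e
    have e1 : (ch hp.out h3).ringHomComp (mk q) x = 1 := by rw [e, MulChar.one_apply_coe]
    rw [MulChar.ringHomComp_apply, ← map_one (mk q), mk_eq_iff] at e1
    exact hx (Rt.eq_of_dvd hq.out h' (rt_cP _ _) rt_one e1)
  have H3 : (ch hp.out h3).ringHomComp (mk q) ^ 3 = 1 := by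
    rw [MulChar.ringHomComp_pow, ch_cube, MulChar.ringHomComp_one]
  have a := frob hch H1 H3 (k := (N q - 1) / 3) (by rw [fcard_Rq]; exact N_eq h')
  rw [jacobiSum_ringHomComp, jac h, fcard_Rq, fcard_Rq, MulChar.ringHomComp_apply,
    ← map_natCast (mk p), ch_mk, ← map_natCast (mk q), ← map_mul, ← mk_cP hq.out h', ← map_mul,
    ← map_one (mk q), mk_eq_iff] at a
  have b := Rt.eq_of_dvd hq.out h' ((rt_cP _ _).mul (rt_cP _ _)) rt_one a
  rw [← mul_star_eq, ← mul_star_eq, cP_mul hq.out h', cP_mul hq.out h', cP_mul hp.out h3,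
    cP_neg hq.out h'] at b
  rw [← b]
  ring

theorem recip_ne [Fact (Prime p)] [Fact (Prime q)] (h : Primary p) (h' : Primary q)
    (hch : ringChar (Rq q) ≠ ringChar (Rq p)) : cP p q = cP q p := by
  have a := frob_O h h'.not_lam_dvd hch
  have b := frob_O h' h.not_lam_dvd hch.symm
  linear_combination (cP q p) * b - (cP p q) * a

theorem prime_star (hp : Prime p) : Prime (star p) :=
  (MulEquiv.prime_iff (starRingAut : RingAut O)).2 hp

theorem eq_or_eq [hp : Fact (Prime p)] [hq : Fact (Prime q)] (h : Primary p) (h' : Primary q)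
    (hch : ringChar (Rq q) = ringChar (Rq p)) : q = p ∨ q = star p := by
  obtain ⟨n, -, hc⟩ := FiniteField.card (Rq p) (ringChar (Rq p))
  have a1 : q ∣ (ringChar (Rq q) : O) := by
    rw [← mk_eq_zero, map_natCast]
    exact ringChar.Nat.cast_ringChar
  have a2 : q ∣ p * star p := by
    rw [mul_star_eq, ← fcard_Rq, hc, Nat.cast_pow, ← hch]
    exact dvd_pow a1 n.ne_zero
  rcases hq.out.dvd_or_dvd a2 with e | e
  · exact Or.inl (h'.eq_of_associated h (hq.out.associated_of_dvd hp.out e))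
  · exact Or.inr (h'.eq_of_associated h.star (hq.out.associated_of_dvd (prime_star hp.out) e))

/-- induction over the primary prime factors of a primary element -/
theorem primary_induction {P : O → Prop} (h1 : P 1)
    (h2 : ∀ r b, Prime r → Primary r → Primary b → P b → P (r * b)) {a : O} (ha : Primary a) :
    P a := by
  induction hn : N a using Nat.strong_induction_on generalizing a with
  | _ n ih =>
    by_cases hu : IsUnit a
    · rwa [ha.eq_one_of_isUnit hu]
    · obtain ⟨r, hr, hra⟩ := WfDvdMonoid.exists_irreducible_factor hu ha.ne_zero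
      have hl : ¬lam ∣ r := fun e => ha.not_lam_dvd (e.trans hra)
      have hr' : Prime (normalize r) := (normalize_associated r).symm.prime hr.prime
      obtain ⟨b, rfl⟩ := (normalize_associated r).dvd.trans hra
      have hb := ha.of_mul (primary_normalize hl)
      refine h2 _ b hr' (primary_normalize hl) hb (ih (N b) ?_ hb rfl)
      have := two_le_N hr'
      have := N_pos hb.ne_zero
      rw [← hn, map_mul]
      nlinarith

/-- cubic reciprocity for primary primes -/
theorem recip (hp : Prime p) (hq : Prime q) (h : Primary p) (h' : Primary q) :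
    cP p q = cP q p := by
  have := Fact.mk hp
  have := Fact.mk hq
  by_cases hch : ringChar (Rq q) = ringChar (Rq p)
  swap
  · exact recip_ne h h' hch
  by_cases e : q = p
  · rw [e]
  have e1 : q = star p := (eq_or_eq h h' hch).resolve_left e
  have e2 : p = star q := by rw [e1, star_star]
  have ha : Primary (-(p + q)) := by
    obtain ⟨x, hx⟩ := h
    obtain ⟨y, hy⟩ := h'
    exact ⟨-1 - x - y, by linear_combination -hx - hy⟩
  have key : ∀ b, Primary b → b ∣ p + q → cP p b = cP q b := fun b hb => by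
    refine primary_induction (P := fun b => b ∣ p + q → cP p b = cP q b) ?_ ?_ hb
    · intro _
      rw [cP_one, cP_one]
    · intro r b hr hr' _ ih hd
      have := Fact.mk hr
      have d1 := dvd_of_mul_right_dvd hd
      have n1 : r ≠ p := by
        rintro rfl
        exact e (h'.eq_of_associated h
          (hp.associated_of_dvd hq ((dvd_add_right dvd_rfl).1 d1)).symm)
      have n2 : r ≠ q := by
        rintro rfl
        exact e (h'.eq_of_associated h (hq.associated_of_dvd hp ((dvd_add_left dvd_rfl).1 d1)))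
      rw [cP_mul hp h.not_lam_dvd, cP_mul hq h'.not_lam_dvd, ih (dvd_of_mul_left_dvd hd),
        recip_ne h hr' fun c => (eq_or_eq h hr' c).elim n1 fun c => n2 (c.trans e1.symm),
        recip_ne h' hr' fun c => (eq_or_eq h' hr' c).elim n2 fun c => n1 (c.trans e2.symm),
        ← cP_neg hr hr'.not_lam_dvd q, cP_congr hr hr'.not_lam_dvd (b := -q) (by simpa using d1)]
  have k1 := key _ ha (neg_dvd.2 dvd_rfl)
  rw [cP_neg hp h.not_lam_dvd, cP_neg hq h'.not_lam_dvd,
    cP_congr hp h.not_lam_dvd (b := q) (by simp), cP_congr hq h'.not_lam_dvd (b := p) (by simp)]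
    at k1
  exact k1

end Pool.Agent.P.MP_26a8c3_nt.QO.Cub
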