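import Pool.Agent.P.MP_26a8c3_nt.QO.StR
import Pool.Agent.P.MP_26a8c3_nt.QO.Sym
import Pool.Agent.P.MP_26a8c3_nt.QO.Res
import Pool.Agent.P.MP_26a8c3_nt.QR.Rec

/-!
Cubic reciprocity, the cube of the cubic Gauss sum.
-/

namespace Pool.Agent.P.MP_26a8c3_nt.QO

theorem Cub.chi_eq {p : O} (hp : Prime p) (h3 : ¬lam ∣ p) (m : O) :
    chi p m = toC (Cub.cP p m) := by
  rw [chi_prime hp]
  congr 1
  refine (Cub.cP_eq hp h3 ?_ (s3_spec hp h3 m)).symm
  by_cases h : p ∣ m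
  · exact Or.inl (s3_of_dvd h)
  · exact Or.inr (s3_R3 h)

theorem pR1 : S_R1 := by
  intro a b ha hb
  refine Cub.primary_induction (P := fun a => chi a b = chi b a) (by simp) ?_ ha
  intro r a hr hr' ha' ih
  rw [chi_mul_left hr.ne_zero ha'.ne_zero, chi_mul, ih]
  congr 1
  refine Cub.primary_induction (P := fun b => chi r b = chi b r) (by simp) ?_ hb
  intro s b hs hs' hb' ih'
  rw [chi_mul_left hs.ne_zero hb'.ne_zero, chi_mul, ih', Cub.chi_eq hr hr'.not_lam_dvd,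
    Cub.chi_eq hs hs'.not_lam_dvd, Cub.recip hr hs hr' hs']

theorem pG3 : S_G3 := by
  intro p hp h
  have := Fact.mk hp
  have e : ft (chi p) p 1 = gaussSum (Cub.chC hp h.not_lam_dvd) (elc p) := by
    rw [gaussSum, ← sm_mk, ft]
    congr 1
    funext x
    rw [Cub.chC_mk, elc_mk, mul_one, Cub.chi_eq hp h.not_lam_dvd]
  rw [e, Cub.gauss_chC h (elc_prim hp.ne_zero), mul_comm]

end Pool.Agent.P.MP_26a8c3_nt.QO
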