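import Pool.Agent.P.MP_26a8c3_nt.QR.Gam

/-! Quadratic reciprocity and quadratic Gauss sums on the Eisenstein integers. -/

namespace Pool.Agent.P.MP_26a8c3_nt.QO

open Complex
open scoped Classical ComplexConjugate

namespace QRP

open GamP

/-- the twisted quadratic sum -/
noncomputable def Sq (h n : O) : ℂ := sm n fun x => el (x ^ 2 * h) n

lemma per_sq (h n : O) : Per n fun x => el (x ^ 2 * h) n := fun x y e =>
  el_congr (by rw [← sub_mul]; exact (e.trans (sub_dvd_pow_sub_pow x y 2)).mul_right h)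

lemma sm_sq {p : O} (hp : Prime p) (ho : Od p) {F : O → ℂ} (hF : Per p F) :
    sm p (fun x => F (x ^ 2)) = sm p fun y => (eta p y + 1) * F y := by
  have := Fact.mk hp
  have hc : ringChar (Rq p) ≠ 2 := fun h => by
    have h1 := ringChar.Nat.cast_ringChar (R := Rq p)
    rw [h] at h1
    have h2 : p ∣ 2 := mk_eq_zero.1 (by rw [map_ofNat]; exact_mod_cast h1)
    exact hp.not_isUnit (ho.isUnit_of_dvd' dvd_rfl h2)
  have e1 : ∀ x, F (x ^ 2) = F (mk p x ^ 2).out := fun x => by rw [← map_pow, hF.out]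
  have e2 : ∀ y, (eta p y + 1) * F y =
      ((quadraticChar (Rq p) (mk p y) + 1 : ℤ) : ℂ) * F (mk p y).out := fun y => by
    rw [hF.out, eta_prime hp, s2_quad]; push_cast; rfl
  rw [sm_congr e1, sm_congr e2, sm_mk p fun r => F (r ^ 2).out,
    sm_mk p fun r => ((quadraticChar (Rq p) r + 1 : ℤ) : ℂ) * F r.out,
    ← Finset.sum_fiberwise Finset.univ fun r : Rq p => r ^ 2]
  refine Finset.sum_congr rfl fun y _ => ?_
  rw [Finset.sum_congr rfl (g := fun _ => F y.out) fun r hr => by rw [(Finset.mem_filter.1 hr).2],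
    Finset.sum_const, nsmul_eq_mul, ← quadraticChar_card_sqrts hc y]
  simp

lemma Sq_prime {p : O} (hp : Prime p) (ho : Od p) (h : O) :
    Sq h p = ft (eta p) p h + if p ∣ h then (N p : ℂ) else 0 := by
  rw [Sq, sm_sq hp ho (per_el p h), ← sm_el hp.ne_zero, ft, ← sm_add hp.ne_zero]
  exact sm_congr fun x => by ring

lemma Sq_one (h3 : S_R3) {n : O} (ho : Od n) : Sq 1 n = ab n * gam n := by
  rw [← h3 n ho, Sq]; simp only [mul_one]

lemma Sq_unit {u : O} (hu : IsUnit u) (h : O) : Sq h u = 1 := by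
  rw [Sq, sm_unit hu (per_sq h u)]; simp

lemma od_unit {u : O} (hu : IsUnit u) : Od u := od_iff.2 fun h =>
  prime_two.not_isUnit (isUnit_of_dvd_unit h hu)

lemma ft_prime (h3 : S_R3) {p : O} (hp : Prime p) (ho : Od p) (h : O) :
    ft (eta p) p h = eta p h * (ab p * gam p) := by
  by_cases e : p ∣ h
  · have h1 := Sq_prime hp ho h
    rw [if_pos e, Sq, sm_congr (H := fun _ => 1) fun x => el_dvd (e.mul_left _),
      sm_const hp.ne_zero] at h1
    rw [(eta_eq_zero hp.ne_zero).2 fun c => hp.coprime_iff_not_dvd.1 c.symm e]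
    linear_combination -h1
  · have hc : IsCoprime h p := (hp.coprime_iff_not_dvd.2 e).symm
    have h1 := Sq_prime hp ho 1
    rw [if_neg fun c => hp.not_isUnit (isUnit_of_dvd_one c), Sq_one h3 ho, add_zero] at h1
    have h2 := ft_scale (isNu_eta hp.ne_zero).per hc 1
    simp only [eta_mul, mul_comm _ (eta p h), one_mul] at h2
    rw [ft_mul_left] at h2
    have h4 := eta_sq hp.ne_zero h
    rw [cop_of hc] at h4
    rw [h1, ← h2]
    linear_combination (-ft (eta p) p h) * h4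

lemma Sq_eta (h3 : S_R3) {a h : O} (ha : IsUnit a ∨ Prime a) (ho : Od a) (hc : IsCoprime h a) :
    Sq h a = eta a h * (ab a * gam a) := by
  rcases ha with ha | ha
  · rw [← Sq_one h3 ho, Sq_unit ha, Sq_unit ha, eta_unit_left ha, one_mul]
  · rw [Sq_prime ha ho, if_neg (ha.coprime_iff_not_dvd.1 hc.symm), add_zero, ft_prime h3 ha ho]

lemma Sq_mul {a b : O} (ha : a ≠ 0) (hb : b ≠ 0) (hc : IsCoprime a b) :
    Sq 1 (a * b) = Sq b a * Sq a b := by
  rw [Sq, sm_crt ha hb hc (per_sq 1 _), Sq, Sq, sm_mul_sm]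
  refine sm_congr fun x => sm_congr fun y => ?_
  rw [← el_frac _ _ ha hb]
  exact el_congr ⟨2 * x * y, by ring⟩

lemma xi_gam {a b : O} (ha : Od a) (hb : Od b) : gam (a * b) = xi a b * (gam a * gam b) := by
  rw [xi, if_pos (od_mul.2 ⟨ha, hb⟩), div_mul_cancel₀ _ (mul_ne_zero (gam_ne ha) (gam_ne hb))]

lemma ab_ne {a : O} (ha : a ≠ 0) : (ab a : ℂ) ≠ 0 := by
  rw [ab]; exact_mod_cast norm_ne_zero_iff.2 (toC_ne_zero ha)

lemma ab_mul' (a b : O) : (ab (a * b) : ℂ) = ab a * ab b := by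
  rw [ab, ab, ab, map_mul, norm_mul, ofReal_mul]

lemma rec_base (h3 : S_R3) {a b : O} (ha : IsUnit a ∨ Prime a) (hb : IsUnit b ∨ Prime b)
    (oa : Od a) (ob : Od b) : eta a b = xi a b * eta b a := by
  by_cases hc : IsCoprime a b
  · have h1 := Sq_mul oa.ne_zero ob.ne_zero hc
    rw [Sq_one h3 (od_mul.2 ⟨oa, ob⟩), Sq_eta h3 ha oa hc.symm, Sq_eta h3 hb ob hc, xi_gam oa ob,
      ab_mul'] at h1
    have h2 : xi a b = eta a b * eta b a :=
      mul_right_cancel₀ (mul_ne_zero (mul_ne_zero (ab_ne oa.ne_zero) (ab_ne ob.ne_zero))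
        (mul_ne_zero (gam_ne oa) (gam_ne ob))) (by linear_combination h1)
    have h4 := eta_sq ob.ne_zero a
    rw [cop_of hc] at h4
    rw [h2]
    linear_combination (-eta a b) * h4
  · rw [(eta_eq_zero oa.ne_zero).2 fun c => hc c.symm, (eta_eq_zero ob.ne_zero).2 hc, mul_zero]

lemma rec_ext {a : O} (oa : Od a)
    (H : ∀ b, IsUnit b ∨ Prime b → Od b → eta a b = xi a b * eta b a) {b : O} (ob : Od b) :
    eta a b = xi a b * eta b a := by
  refine nz_ind (P := fun b => Od b → eta a b = xi a b * eta b a) (fun u hu => H u (Or.inl hu))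
    (fun p c hp _ hc ih o => ?_) ob.ne_zero ob
  obtain ⟨o1, o2⟩ := od_mul.1 o
  rw [eta_mul, (isNu_xi oa).mul, eta_mul_left hp.ne_zero hc, H p (Or.inr hp) o1, ih o2]
  ring

lemma rec_symm {a b : O} (oa : Od a) (ob : Od b) (h : eta a b = xi a b * eta b a) :
    eta b a = xi b a * eta a b := by
  rw [xi_comm b a, h]
  rcases xi_pm oa ob with e | e <;> rw [e] <;> ring

end QRP

open QRP GamP

/-- quadratic reciprocity -/
theorem eta_rec (h3 : S_R3) {a b : O} (oa : Od a) (ob : Od b) : eta a b = xi a b * eta b a :=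
  rec_ext oa (fun _ hb ob => rec_symm ob oa
    (rec_ext ob (fun _ hc oc => rec_base h3 hb hc ob oc) oa)) ob

/-- the Gauss sum of the quadratic symbol -/
theorem ft_eta (h3 : S_R3) {n : O} (hs : Squarefree n) (ho : Od n) (h : O) :
    ft (eta n) n h = eta n h * (ab n * gam n) := by
  refine nz_ind (P := fun n => Squarefree n → Od n → ft (eta n) n h = eta n h * (ab n * gam n))
    (fun u hu _ o => ?_) (fun p a hp _ ha ih s o => ?_) ho.ne_zero hs ho
  · rw [← Sq_one h3 o, Sq_unit hu, ft, sm_unit hu ((isNu_eta hu.ne_zero).per.mul (per_el u h))]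
    simp [eta_unit_left hu]
  · obtain ⟨o1, o2⟩ := od_mul.1 o
    have hc : IsCoprime p a := hp.coprime_iff_not_dvd.2 fun e =>
      hp.not_isUnit (s p (mul_dvd_mul_left p e))
    have e : eta (p * a) = fun x => eta p x * eta a x := funext (eta_mul_left hp.ne_zero ha)
    have h4 := eta_sq ha p
    rw [cop_of hc] at h4
    rw [e, ft_crt hp.ne_zero ha hc (isNu_eta hp.ne_zero).per (isNu_eta ha).per]
    simp only [eta_mul, mul_comm _ (eta p a), mul_comm _ (eta a p)]
    rw [ft_mul_left, ft_mul_left, ft_prime h3 hp o1, ih s.of_mul_right o2, xi_gam o1 o2, ab_mul',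
      eta_rec h3 o1 o2]
    linear_combination (xi p a * eta p h * eta a h * ab p * gam p * ab a * gam a) * h4

theorem pQR (h1 : S_R1) (h3 : S_R3) : S_QR :=
  ⟨fun _ h hs ho => ft_eta h3 hs ho h, fun _ _ => eta_rec h3, fun a b pa pb oa ob => by
    rw [psi, psi, eta_rec h3 oa ob, h1 a b pa pb, mul_assoc]⟩

end Pool.Agent.P.MP_26a8c3_nt.QO
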